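import Pool.Agent.H.MP_f934c9_lc.B

set_option autoImplicit false

namespace Pool.Agent.Results.MP_f934c9_lc.GI
open Pool.Agent.Lib.CX Pool.Agent.H.MP_f934c9_lc

theorem result :
    Red (fun a : Gr × Gr => Nonempty (a.1.G ≃g a.2.G))
      (fun a : {a : Gr × Gr // Geo a.1.G ∧ Geo a.2.G} => Nonempty (a.1.1.G ≃g a.1.2.G)) ∧
    ((∃ f : Gr × Gr → Bool, PT f ∧ ∀ a, Geo a.1.G → Geo a.2.G → (Nonempty (a.1.G ≃g a.2.G) ↔ f a = true)) ↔
      InP fun a : Gr × Gr => Nonempty (a.1.G ≃g a.2.G)) := by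
  have h : PT fun a : Gr × Gr => (red a.1, red a.2) := (pt_red.comp PT.fst').pair (pt_red.comp PT.snd')
  exact ⟨⟨fun a => ⟨_, red_geo a.1, red_geo a.2⟩, h.subtype _, fun a => red_iff a.1 a.2⟩,
    fun ⟨f, a, b⟩ => ⟨_, a.comp h, fun x => (red_iff x.1 x.2).trans (b (_, _) (red_geo _) (red_geo _))⟩,
    fun ⟨f, a, b⟩ => ⟨f, a, fun x _ _ => b x⟩⟩

end Pool.Agent.Results.MP_f934c9_lc.GI
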